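import Mathlib

set_option autoImplicit false

/-!
# Powerful part and products of consecutive integers
-/

namespace Run7.h714.PP

/-- The powerful part `Q₂(m)`: the product of the prime powers which divide `m` exactly, with
exponent at least `2`. -/
def powPart (m : ℕ) : ℕ :=
  ∏ p ∈ m.primeFactors.filter (fun p => 2 ≤ m.factorization p), p ^ m.factorization p

/-- The product `P_ℓ(n) = n (n + 1) ⋯ (n + ℓ)`. -/
def prodConsec (ℓ n : ℕ) : ℕ := ∏ i ∈ Finset.range (ℓ + 1), (n + i)

end Run7.h714.PP
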