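import Pool.Agent.Run7.h714.PP.Pell
import Pool.Agent.Run7.h714.PP.Defs

set_option autoImplicit false

/-!
# Large powerful parts
-/

namespace Run7.h714.PP

open Filter

theorem le_powPart {D m : ℕ} (hm : m ≠ 0) (hD : D ∣ m)
    (hp : ∀ p, p.Prime → p ∣ D → p ^ 2 ∣ D) : D ≤ powPart m := by
  have hD0 : D ≠ 0 := fun h => hm (by rw [h] at hD; exact Nat.eq_zero_of_zero_dvd hD)
  have hfac : ∀ p, D.factorization p ≤ m.factorization p := fun p =>
    (Nat.factorization_le_iff_dvd hD0 hm).2 hD p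
  have h1 : D = ∏ p ∈ D.primeFactors, p ^ D.factorization p := by
    conv_lhs => rw [← Nat.prod_factorization_pow_eq_self hD0]
    rfl
  have h2 : ∏ p ∈ D.primeFactors, p ^ D.factorization p
      ≤ ∏ p ∈ D.primeFactors, p ^ m.factorization p := by
    refine Finset.prod_le_prod' fun p hp => ?_
    exact Nat.pow_le_pow_right (Nat.pos_of_mem_primeFactors hp) (hfac p)
  have h3 : ∏ p ∈ D.primeFactors, p ^ m.factorization p ≤ powPart m := by
    unfold powPart
    refine Finset.prod_le_prod_of_subset_of_one_le' ?_ ?_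
    · intro p hpD
      have hpp := Nat.prime_of_mem_primeFactors hpD
      have hpd := Nat.dvd_of_mem_primeFactors hpD
      rw [Finset.mem_filter]
      refine ⟨Nat.primeFactors_mono hD hm hpD, ?_⟩
      have h4 : 2 ≤ D.factorization p :=
        (hpp.pow_dvd_iff_le_factorization hD0).1 (hp p hpp hpd)
      exact h4.trans (hfac p)
    · intro p hpm _
      have := Finset.mem_filter.1 hpm
      exact Nat.one_le_pow _ _ (Nat.pos_of_mem_primeFactors this.1)
  rw [h1]
  exact h2.trans h3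

theorem real_bound (k : ℕ) : ((px k : ℤ) : ℝ) ≤ (3 + 2 * Real.sqrt 2) ^ k := by
  have h : ∀ k, (((pz k).1 : ℤ) : ℝ) + ((pz k).2 : ℝ) * (2 * Real.sqrt 2)
      = (3 + 2 * Real.sqrt 2) ^ k := by
    intro k
    induction k with
    | zero => simp [pz]
    | succ k ih =>
      rw [pow_succ, ← ih]
      have h2 : Real.sqrt 2 * Real.sqrt 2 = 2 := Real.mul_self_sqrt (by norm_num)
      simp only [pz]
      push_cast
      linear_combination (-4 * ((pz k).2 : ℝ)) * h2
  rw [← h k]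
  have h1 := (pz_pos k).2.1
  have h2 : (0 : ℝ) ≤ ((pz k).2 : ℝ) := by exact_mod_cast h1
  have h3 : 0 ≤ Real.sqrt 2 := Real.sqrt_nonneg 2
  have : px k = (pz k).1 := rfl
  rw [this]
  nlinarith

/-- one good `n` for each element of the chain -/
theorem good_n {g p : ℕ} (h : Ch g p) {ℓ : ℕ} (hℓ : 2 ≤ ℓ) : ∃ n : ℕ, 3 ^ g ≤ n + 1 ∧
    (n : ℝ) ≤ (3 + 2 * Real.sqrt 2) ^ g ∧ n ^ 2 * g ^ 2 ≤ powPart (prodConsec ℓ n) := by
  obtain ⟨hg, _, _, _, hgx⟩ := h
  obtain ⟨x, hx⟩ := Int.eq_ofNat_of_zero_le (px_pos g).le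
  obtain ⟨z, hz⟩ := Int.eq_ofNat_of_zero_le (pz_pos g).2.1
  have hx' : (pz g).1 = (x : ℤ) := hx
  have hpell := pell g
  rw [hx', hz] at hpell
  have hx3 : 3 ^ g ≤ x := by
    have := px_ge g
    rw [hx] at this
    exact_mod_cast this
  have hx2 : 3 ≤ x := by
    have : 3 ^ 1 ≤ 3 ^ g := Nat.pow_le_pow_right (by norm_num) hg
    omega
  have hgx' : g ^ 2 ∣ x := by
    rw [hx] at hgx
    exact_mod_cast hgx
  obtain ⟨n, rfl⟩ : ∃ n, x = n + 1 := ⟨x - 1, by omega⟩
  have hn : n * (n + 2) = 8 * z ^ 2 := by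
    have : ((n : ℤ) + 1) ^ 2 - 8 * (z : ℤ) ^ 2 = 1 := by exact_mod_cast hpell
    have h2 : (n : ℤ) * (n + 2) = 8 * z ^ 2 := by linear_combination this
    exact_mod_cast h2
  refine ⟨n, hx3, ?_, ?_⟩
  · have := real_bound g
    rw [hx] at this
    push_cast at this
    linarith
  · have hm : prodConsec ℓ n ≠ 0 := by
      unfold prodConsec
      rw [Finset.prod_ne_zero_iff]
      intro i _
      omega
    have h3 : n * (n + 1) * (n + 2) ∣ prodConsec ℓ n := by
      have e : n * (n + 1) * (n + 2) = ∏ i ∈ Finset.range 3, (n + i) := by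
        simp [Finset.prod_range_succ]
      rw [e]
      exact Finset.prod_dvd_prod_of_subset _ _ _ (Finset.range_mono (by omega))
    have hD : n * (n + 2) * g ^ 2 ∣ prodConsec ℓ n := by
      refine Dvd.dvd.trans ?_ h3
      have e : n * (n + 1) * (n + 2) = n * (n + 2) * (n + 1) := by ring
      rw [e]
      exact mul_dvd_mul_left _ hgx'
    have hDp : ∀ q, q.Prime → q ∣ n * (n + 2) * g ^ 2 → q ^ 2 ∣ n * (n + 2) * g ^ 2 := by
      intro q hq hqd
      rcases (Nat.Prime.dvd_mul hq).1 hqd with h | h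
      · rw [hn] at h ⊢
        refine Dvd.dvd.mul_right ?_ _
        rcases (Nat.Prime.dvd_mul hq).1 h with h | h
        · have : q ∣ 2 := by
            have e : (8 : ℕ) = 2 ^ 3 := by norm_num
            rw [e] at h
            exact hq.dvd_of_dvd_pow h
          have : q = 2 := (Nat.prime_dvd_prime_iff_eq hq Nat.prime_two).1 this
          subst this
          exact Dvd.dvd.mul_right (by norm_num) _
        · exact Dvd.dvd.mul_left (pow_dvd_pow_of_dvd (hq.dvd_of_dvd_pow h) 2) _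
      · exact Dvd.dvd.mul_left (pow_dvd_pow_of_dvd (hq.dvd_of_dvd_pow h) 2) _
    refine le_trans ?_ (le_powPart hm hD hDp)
    refine Nat.mul_le_mul_right _ ?_
    nlinarith

theorem rate {ℓ : ℕ} (hℓ : 2 ≤ ℓ) : ∃ᶠ n : ℕ in atTop,
    (n : ℝ) ^ 2 * (Real.log n / Real.log (3 + 2 * Real.sqrt 2)) ^ 2
      ≤ (powPart (prodConsec ℓ n) : ℝ) := by
  rw [frequently_atTop]
  intro a
  obtain ⟨g, p, h, hg⟩ := ch_unbounded (a + 1)
  obtain ⟨n, h1, h2, h3⟩ := good_n h hℓ
  have hng : g ≤ n := by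
    have : g < 3 ^ g := Nat.lt_pow_self (by norm_num)
    omega
  refine ⟨n, by omega, ?_⟩
  have hn0 : (0 : ℝ) < n := by
    have : 0 < n := by omega
    exact_mod_cast this
  have hb : 1 < 3 + 2 * Real.sqrt 2 := by
    have := Real.sqrt_nonneg 2
    linarith
  have hL : 0 < Real.log (3 + 2 * Real.sqrt 2) := Real.log_pos hb
  have h4 : Real.log n ≤ g * Real.log (3 + 2 * Real.sqrt 2) := by
    rw [← Real.log_pow]
    exact Real.log_le_log hn0 h2
  have h5 : Real.log n / Real.log (3 + 2 * Real.sqrt 2) ≤ g := by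
    rw [div_le_iff₀ hL]
    exact h4
  have h6 : 0 ≤ Real.log n / Real.log (3 + 2 * Real.sqrt 2) := by
    apply div_nonneg _ hL.le
    apply Real.log_nonneg
    have : 1 ≤ n := by omega
    exact_mod_cast this
  have h7 : ((n : ℝ)) ^ 2 * (g : ℝ) ^ 2 ≤ (powPart (prodConsec ℓ n) : ℝ) := by exact_mod_cast h3
  refine le_trans ?_ h7
  have h8 : (Real.log n / Real.log (3 + 2 * Real.sqrt 2)) ^ 2 ≤ (g : ℝ) ^ 2 :=
    pow_le_pow_left₀ h6 h5 2
  exact mul_le_mul_of_nonneg_left h8 (by positivity)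

theorem limsup_top {ℓ : ℕ} (hℓ : 2 ≤ ℓ) :
    limsup (fun n : ℕ => (((powPart (prodConsec ℓ n) : ℝ) / (n : ℝ) ^ 2 : ℝ) : EReal)) atTop
      = ⊤ := by
  rw [EReal.eq_top_iff_forall_lt]
  intro y
  have hb : 1 < 3 + 2 * Real.sqrt 2 := by
    have := Real.sqrt_nonneg 2
    linarith
  have hL : 0 < Real.log (3 + 2 * Real.sqrt 2) := Real.log_pos hb
  have hlim : Tendsto (fun n : ℕ => (Real.log n / Real.log (3 + 2 * Real.sqrt 2)) ^ 2) atTop
      atTop := by
    have h1 : Tendsto (fun n : ℕ => Real.log n) atTop atTop :=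
      Real.tendsto_log_atTop.comp tendsto_natCast_atTop_atTop
    exact (tendsto_pow_atTop two_ne_zero).comp (h1.atTop_div_const hL)
  have h2 := (rate hℓ).and_eventually ((hlim.eventually_ge_atTop (y + 1)).and
    (eventually_gt_atTop 0))
  have h3 : ∃ᶠ n : ℕ in atTop, ((y + 1 : ℝ) : EReal) ≤
      (((powPart (prodConsec ℓ n) : ℝ) / (n : ℝ) ^ 2 : ℝ) : EReal) := by
    refine h2.mono ?_
    rintro n ⟨g1, g2, g3⟩
    rw [EReal.coe_le_coe_iff]
    have hn0 : (0 : ℝ) < (n : ℝ) ^ 2 := by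
      have : (0 : ℝ) < n := by exact_mod_cast g3
      positivity
    rw [le_div_iff₀ hn0]
    refine le_trans ?_ g1
    rw [mul_comm]
    exact mul_le_mul_of_nonneg_left g2 hn0.le
  have h4 := le_limsup_of_frequently_le h3 (by isBoundedDefault)
  refine lt_of_lt_of_le ?_ h4
  rw [EReal.coe_lt_coe_iff]
  linarith

end Run7.h714.PP
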