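import Mathlib

set_option autoImplicit false
set_option linter.unusedSectionVars false

/-!
# Powerful parts of three consecutive integers
-/

namespace Run7.h714.PP

open Polynomial

/-- The solutions of `x² - 8 z² = 1`. -/
def pz : ℕ → ℤ × ℤ
  | 0 => (1, 0)
  | n + 1 => (3 * (pz n).1 + 8 * (pz n).2, (pz n).1 + 3 * (pz n).2)

/-- the `x` of the solution -/
def px (n : ℕ) : ℤ := (pz n).1

theorem pell (n : ℕ) : (pz n).1 ^ 2 - 8 * (pz n).2 ^ 2 = 1 := by
  induction n with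
  | zero => simp [pz]
  | succ n ih => simp only [pz]; linear_combination ih

theorem pz_pos (n : ℕ) : 0 < (pz n).1 ∧ 0 ≤ (pz n).2 ∧ 2 * (pz n).2 ≤ (pz n).1 := by
  induction n with
  | zero => simp [pz]
  | succ n ih =>
    obtain ⟨h1, h2, h3⟩ := ih
    simp only [pz]
    refine ⟨by linarith, by linarith, by linarith⟩

theorem px_pos (n : ℕ) : 0 < px n := (pz_pos n).1

theorem px_lower (n : ℕ) : 3 * px n ≤ px (n + 1) := by
  have := pz_pos n
  simp only [px, pz]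
  linarith

theorem px_upper (n : ℕ) : px (n + 1) ≤ 6 * px n := by
  have h := pz_pos n
  have h2 := pell n
  simp only [px, pz]
  -- 8 z ≤ 3 x
  nlinarith

theorem px_pow (m k : ℕ) : 3 ^ k * px m ≤ px (m + k) := by
  induction k with
  | zero => simp
  | succ k ih =>
    have := px_lower (m + k)
    rw [pow_succ]
    have e : m + (k + 1) = m + k + 1 := by ring
    rw [e]
    linarith

theorem px_le (k : ℕ) : px k ≤ 6 ^ k := by
  induction k with
  | zero => simp [px, pz]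
  | succ k ih =>
    have := px_upper k
    rw [pow_succ]
    linarith

theorem px_ge (k : ℕ) : 3 ^ k ≤ px k := by
  have := px_pow 0 k
  simpa [px, pz] using this

theorem px_odd (k : ℕ) : ¬ (2 : ℤ) ∣ px k := by
  intro h
  have h1 := pell k
  obtain ⟨c, hc⟩ := h
  have hc' : (pz k).1 = 2 * c := hc
  rw [hc'] at h1
  have h2 : 2 * (2 * c ^ 2 - 4 * (pz k).2 ^ 2) = 1 := by linear_combination h1
  omega

theorem px_eval (n : ℕ) : px n = (Chebyshev.T ℤ n).eval 3 := by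
  induction n using Nat.twoStepInduction with
  | zero => simp [px, pz]
  | one => simp [px, pz]
  | more n h1 h2 =>
    have : ((n + 2 : ℕ) : ℤ) = (n : ℤ) + 2 := by push_cast; ring
    rw [this, Chebyshev.T_add_two]
    have e2 : ((n + 1 : ℕ) : ℤ) = (n : ℤ) + 1 := by push_cast; ring
    rw [e2] at h2
    simp only [eval_sub, eval_mul, eval_ofNat, eval_X]
    rw [← h1, ← h2]
    simp only [px, pz]
    ring

theorem cheb (X : ℤ) (j : ℕ) :
    (∃ A : ℤ, (Chebyshev.T ℤ (2 * j : ℕ)).eval X = (-1) ^ j + X ^ 2 * A) ∧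
    (∃ B : ℤ, (Chebyshev.T ℤ (2 * j + 1 : ℕ)).eval X = (-1) ^ j * (2 * j + 1) * X + X ^ 3 * B) := by
  induction j with
  | zero => exact ⟨⟨0, by simp⟩, ⟨0, by simp⟩⟩
  | succ j ih =>
    obtain ⟨⟨A, hA⟩, ⟨B, hB⟩⟩ := ih
    have h1 : (Chebyshev.T ℤ (2 * (j + 1) : ℕ)).eval X
        = 2 * X * (Chebyshev.T ℤ (2 * j + 1 : ℕ)).eval X - (Chebyshev.T ℤ (2 * j : ℕ)).eval X := by
      have e : ((2 * (j + 1) : ℕ) : ℤ) = ((2 * j : ℕ) : ℤ) + 2 := by push_cast; ring
      have e2 : ((2 * j + 1 : ℕ) : ℤ) = ((2 * j : ℕ) : ℤ) + 1 := by push_cast; ring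
      rw [e, e2, Chebyshev.T_add_two]
      simp only [eval_sub, eval_mul, eval_ofNat, eval_X]
    have h2 : (Chebyshev.T ℤ (2 * (j + 1) + 1 : ℕ)).eval X
        = 2 * X * (Chebyshev.T ℤ (2 * (j + 1) : ℕ)).eval X
          - (Chebyshev.T ℤ (2 * j + 1 : ℕ)).eval X := by
      have e : ((2 * (j + 1) + 1 : ℕ) : ℤ) = ((2 * j + 1 : ℕ) : ℤ) + 2 := by push_cast; ring
      have e2 : ((2 * (j + 1) : ℕ) : ℤ) = ((2 * j + 1 : ℕ) : ℤ) + 1 := by push_cast; ring
      rw [e, e2, Chebyshev.T_add_two]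
      simp only [eval_sub, eval_mul, eval_ofNat, eval_X]
    have hA' : (Chebyshev.T ℤ (2 * (j + 1) : ℕ)).eval X = (-1) ^ (j + 1)
        + X ^ 2 * (2 * ((-1) ^ j * (2 * j + 1)) + 2 * X ^ 2 * B - A) := by
      rw [h1, hA, hB]; ring
    refine ⟨⟨_, hA'⟩, ⟨2 * (2 * ((-1) ^ j * (2 * j + 1)) + 2 * X ^ 2 * B - A) - B, ?_⟩⟩
    rw [h2, hA', hB]
    push_cast
    ring

/-- the quotient of `px (g p)` and `px g` -/
theorem px_mul (g p : ℕ) (hp : Odd p) : ∃ (ε B : ℤ), (ε = 1 ∨ ε = -1) ∧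
    px (g * p) = px g * (ε * p + px g ^ 2 * B) := by
  obtain ⟨j, rfl⟩ := hp
  obtain ⟨_, B, hB⟩ := cheb (px g) j
  refine ⟨(-1) ^ j, B, neg_one_pow_eq_or ℤ j, ?_⟩
  have h1 : px (g * (2 * j + 1)) = (Chebyshev.T ℤ (2 * j + 1 : ℕ)).eval (px g) := by
    rw [px_eval, px_eval g, mul_comm g, Nat.cast_mul, Chebyshev.T_mul, eval_comp]
  rw [h1, hB]
  push_cast
  ring

/-- the invariant of the chain -/
def Ch (g p : ℕ) : Prop :=
  0 < g ∧ p.Prime ∧ (p : ℤ) ∣ px g ∧ ¬ p ∣ g ∧ ((g : ℤ) ^ 2) ∣ px g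

theorem ch_step {g p : ℕ} (h : Ch g p) : ∃ p', Ch (g * p) p' := by
  obtain ⟨hg, hp, hpx, hpg, hgx⟩ := h
  have hp2 : p ≠ 2 := by
    rintro rfl
    exact px_odd g (by exact_mod_cast hpx)
  have hodd : Odd p := hp.odd_of_ne_two hp2
  obtain ⟨ε, B, hε, hm⟩ := px_mul g p hodd
  set N : ℤ := ε * p + px g ^ 2 * B with hN
  have hNpos : 0 < N := by
    have h1 := px_pos (g * p)
    rw [hm] at h1
    exact (pos_iff_pos_of_mul_pos h1).1 (px_pos g)
  have hNp : (p : ℤ) < N := by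
    have h1 : 3 ^ (g * p - g) * px g ≤ px (g * p) := by
      have := px_pow g (g * p - g)
      rwa [Nat.add_sub_cancel' (Nat.le_mul_of_pos_right g hp.pos)] at this
    rw [hm, mul_comm (px g)] at h1
    have h2 : (3 : ℤ) ^ (g * p - g) ≤ N := le_of_mul_le_mul_right h1 (px_pos g)
    have h3 : (p : ℤ) < 3 ^ (g * p - g) := by
      have h4 : p < 3 ^ (p - 1) := by
        have : ∀ k : ℕ, k + 2 < 3 ^ (k + 1) := by
          intro k
          induction k with
          | zero => norm_num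
          | succ k ih => rw [pow_succ]; omega
        have h5 := this (p - 2)
        have h6 := hp.two_le
        have e1 : p - 2 + 2 = p := by omega
        have e2 : p - 2 + 1 = p - 1 := by omega
        rwa [e1, e2] at h5
      have h5 : p - 1 ≤ g * p - g := by
        have : g * p - g = g * (p - 1) := by rw [Nat.mul_sub, mul_one]
        rw [this]
        exact Nat.le_mul_of_pos_left _ hg
      have h6 : 3 ^ (p - 1) ≤ 3 ^ (g * p - g) := Nat.pow_le_pow_right (by norm_num) h5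
      exact_mod_cast h4.trans_le h6
    linarith
  have hpN : (p : ℤ) ∣ N := by
    rw [hN]
    exact dvd_add (dvd_mul_left _ _) ((dvd_pow hpx two_ne_zero).mul_right B)
  obtain ⟨N1, hN1⟩ := hpN
  have hp0 : (0 : ℤ) < p := by exact_mod_cast hp.pos
  have hN1' : 1 < N1 := by
    rw [hN1] at hNp
    nlinarith
  have hpN1 : ¬ (p : ℤ) ∣ N1 := by
    intro h
    have h1 : (p : ℤ) ^ 2 ∣ N := by
      rw [hN1, sq]
      exact mul_dvd_mul_left _ h
    have h2 : (p : ℤ) ^ 2 ∣ ε * p := by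
      have : ε * p = N - px g ^ 2 * B := by rw [hN]; ring
      rw [this]
      exact dvd_sub h1 ((pow_dvd_pow_of_dvd hpx 2).mul_right B)
    have h3 : (p : ℤ) ∣ ε := by
      rw [sq, mul_comm ε] at h2
      exact Int.dvd_of_mul_dvd_mul_left hp0.ne' h2
    have h4 : (p : ℤ) ∣ 1 := by
      rcases hε with rfl | rfl
      · exact h3
      · exact (dvd_neg.1 h3)
    have h5 : p ∣ 1 := by exact_mod_cast h4
    exact hp.one_lt.ne' (Nat.dvd_one.1 h5)
  obtain ⟨q, hq, hqN⟩ := Nat.exists_prime_and_dvd (n := N1.natAbs) (by omega)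
  have hqN1 : (q : ℤ) ∣ N1 := Int.natCast_dvd.2 hqN
  have hqN' : (q : ℤ) ∣ N := by rw [hN1]; exact hqN1.mul_left _
  have hqp : q ≠ p := by
    rintro rfl
    exact hpN1 hqN1
  have hqx : ¬ (q : ℤ) ∣ px g := by
    intro h
    have h1 : (q : ℤ) ∣ ε * p := by
      have : ε * p = N - px g ^ 2 * B := by rw [hN]; ring
      rw [this]
      exact dvd_sub hqN' ((dvd_pow h two_ne_zero).mul_right B)
    have h2 : (q : ℤ) ∣ p := by
      rcases hε with rfl | rfl
      · simpa using h1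
      · simpa using h1
    have h3 : q ∣ p := by exact_mod_cast h2
    exact hqp ((Nat.prime_dvd_prime_iff_eq hq hp).1 h3)
  refine ⟨q, Nat.mul_pos hg hp.pos, hq, ?_, ?_, ?_⟩
  · rw [hm]; exact hqN'.mul_left _
  · intro h
    rcases (Nat.Prime.dvd_mul hq).1 h with h | h
    · apply hqx
      have h1 : (q : ℤ) ∣ (g : ℤ) ^ 2 := dvd_pow (by exact_mod_cast h) two_ne_zero
      exact h1.trans hgx
    · exact hqp ((Nat.prime_dvd_prime_iff_eq hq hp).1 h)
  · rw [hm]
    have hcop : IsCoprime ((g : ℤ) ^ 2) (p : ℤ) := by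
      apply IsCoprime.pow_left
      rw [Nat.isCoprime_iff_coprime]
      exact ((Nat.Prime.coprime_iff_not_dvd hp).2 hpg).symm
    have h1 : (g : ℤ) ^ 2 * p ∣ px g := hcop.mul_dvd hgx hpx
    have h2 : (g : ℤ) ^ 2 * p * p ∣ px g * N := mul_dvd_mul h1 ⟨N1, hN1⟩
    have e : ((g * p : ℕ) : ℤ) ^ 2 = (g : ℤ) ^ 2 * p * p := by push_cast; ring
    rw [e]
    exact h2

theorem ch_unbounded (B : ℕ) : ∃ g p, Ch g p ∧ B ≤ g := by
  induction B with
  | zero =>
    refine ⟨1, 3, ⟨one_pos, Nat.prime_three, ?_, by norm_num, by norm_num⟩, by norm_num⟩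
    norm_num [px, pz]
  | succ B ih =>
    obtain ⟨g, p, h, hB⟩ := ih
    obtain ⟨p', h'⟩ := ch_step h
    refine ⟨g * p, p', h', ?_⟩
    have h1 := h.1
    have h2 := h.2.1.two_le
    nlinarith

end Run7.h714.PP
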